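import Mathlib
import Pool.Agent.Q95.CycInf

/-!
Problem MP_0fee77_co: saturation numbers of the families of cycles with lengths in `[s, r]` and in
`[s, ∞)`.
-/

namespace Pool.Agent.Results.MP_0fee77_co.FailsAtFour

open Pool.Agent.Q95.CycFam Pool.Agent.Q95.CycInf

/-- For `s = 4` and every `r ≥ 6` the saturation number of the cycles with lengths in `[4, r]` is
strictly smaller than that of the cycles with lengths in `[4, ∞)`, for every `n ≥ r + 1` with
`n ≡ r + 1 (mod 4)`.  So there are no functions `r(s)`, `n(s, r)` as in the question. -/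
theorem result :
    (∀ r : ℕ, 6 ≤ r → ∀ n : ℕ, r + 1 ≤ n → n % 4 = (r + 1) % 4 →
      sat n (Set.Icc 4 r) < sat n (Set.Ici 4)) ∧
    ¬ ∃ (R : ℕ → ℕ) (N : ℕ → ℕ → ℕ), ∀ s : ℕ, 4 ≤ s → ∀ r : ℕ, R s ≤ r → ∀ n : ℕ, N s r ≤ n →
      sat n (Set.Icc s r) = sat n (Set.Ici s) := by
  have main : ∀ r : ℕ, 6 ≤ r → ∀ n : ℕ, r + 1 ≤ n → n % 4 = (r + 1) % 4 →
      sat n (Set.Icc 4 r) < sat n (Set.Ici 4) := by
    intro r hr n hn hmod
    obtain ⟨k, rfl⟩ : ∃ k, n = 4 * k + r + 1 := ⟨(n - (r + 1)) / 4, by omega⟩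
    have h1 := sat_le (k := k) hr
    have h2 := sat_Ici_ge (4 * k + r + 1) (by omega)
    omega
  refine ⟨main, ?_⟩
  rintro ⟨R, N, h⟩
  have h1 := main (max 6 (R 4)) (le_max_left _ _)
    (4 * N 4 (max 6 (R 4)) + max 6 (R 4) + 1) (by omega) (by omega)
  have h2 := h 4 le_rfl (max 6 (R 4)) (le_max_right _ _)
    (4 * N 4 (max 6 (R 4)) + max 6 (R 4) + 1) (by omega)
  omega

end Pool.Agent.Results.MP_0fee77_co.FailsAtFour
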